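import Pool.Agent.TH346.CG.Lin

/-!
# Linear covers of the generating sets of Cayley graphs on `F_p ^ n` without large induced cubes

For all primes `p` and all `k`, `M` there is `K` such that for every Cayley graph on `F_p ^ n` with
clique number at most `k` which does not contain the `M`-dimensional cube as an induced subgraph, the
generating set is covered by `K` sets `{L ≠ 0}` with `L` a linear form.  As `χ ≤ C` gives clique number
at most `C`, and as `{L ≠ 0} = {L ^ 2 ≠ 0}`, the question has a positive answer for these graphs.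

Proof.  As in `BoundedExponent` (results of MP_763321_co) the generating set `A` is a union of `O(1)`
symmetric sets `S` of small tripling, and for each of them there is a subgroup `H` of near-periods
such that `O(1)` cosets of `H` cover `S`.  If `y ∉ H`, then the coset `y + H` is contained in
`{L ≠ 0}` for a linear form `L` which is zero on `H` but not at `y`.  A clique in `H` can be extended
by a translate of most elements of `S`, so the Cayley graph of `H` generated by `A ∩ H` has smaller
clique number, and by induction `A ∩ H` is covered by `O(1)` sets `{L ≠ 0}`.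
-/

namespace Pool.Agent.Results.MP_e4b685_co.NoInducedCube

/-- The `M`-dimensional cube: the subsets of `Fin M`, adjacent when they differ in one element. -/
def Cube (M : ℕ) : SimpleGraph (Finset (Fin M)) where
  Adj S T := (symmDiff S T).card = 1
  symm := ⟨fun S T h => by rw [symmDiff_comm]; exact h⟩
  loopless := ⟨fun S h => by simp at h⟩

theorem result :
    -- clique number at most `k`, linear forms
    (∀ p : ℕ, p.Prime → ∀ k M : ℕ, ∃ K : ℕ, ∀ (n : ℕ) (S : Set (Fin n → ZMod p)), 0 ∉ S →
      (SimpleGraph.addCayley S).CliqueFree (k + 1) →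
      ¬ (Cube M).IsIndContained (SimpleGraph.addCayley S) →
      ∃ L : Fin K → ((Fin n → ZMod p) →ₗ[ZMod p] ZMod p), ∀ s ∈ S, ∃ j, L j s ≠ 0) ∧
    -- chromatic number at most `C`, quadratic forms
    (∀ p : ℕ, p.Prime → ∀ C M : ℕ, ∃ K : ℕ, ∀ (n : ℕ) (S : Set (Fin n → ZMod p)), 0 ∉ S →
      (SimpleGraph.addCayley S).Colorable C →
      ¬ (Cube M).IsIndContained (SimpleGraph.addCayley S) →
      ∃ P : Fin K → QuadraticForm (ZMod p) (Fin n → ZMod p), ∀ s ∈ S, ∃ j, P j s ≠ 0) := by
  have h1 : ∀ p : ℕ, p.Prime → ∀ k M : ℕ, ∃ K : ℕ, ∀ (n : ℕ) (S : Set (Fin n → ZMod p)), 0 ∉ S →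
      (SimpleGraph.addCayley S).CliqueFree (k + 1) →
      ¬ (Cube M).IsIndContained (SimpleGraph.addCayley S) →
      ∃ L : Fin K → ((Fin n → ZMod p) →ₗ[ZMod p] ZMod p), ∀ s ∈ S, ∃ j, L j s ≠ 0 := by
    intro p hp k M
    have := Fact.mk hp
    obtain ⟨K, hK⟩ := Pool.Agent.TH346.CG.lin_cover p hp k M
    refine ⟨K, ?_⟩
    intro n S h0 hfree hind
    obtain ⟨L, hL⟩ := hK (Fin n → ZMod p) S (by intro x; ext i; simp) h0 hfree
      ⟨fun f => hind ⟨f⟩⟩
    exact ⟨fun j => (L j).toZModLinearMap p, hL⟩
  refine ⟨h1, ?_⟩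
  intro p hp C M
  have := Fact.mk hp
  obtain ⟨K, hK⟩ := h1 p hp C M
  refine ⟨K, ?_⟩
  intro n S h0 hcol hind
  obtain ⟨L, hL⟩ := hK n S h0 (hcol.cliqueFree (Nat.lt_succ_self C)) hind
  refine ⟨fun j => QuadraticMap.linMulLin (L j) (L j), ?_⟩
  intro s hs
  obtain ⟨j, hj⟩ := hL s hs
  refine ⟨j, ?_⟩
  rw [QuadraticMap.linMulLin_apply]
  exact mul_ne_zero hj hj

end Pool.Agent.Results.MP_e4b685_co.NoInducedCube
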