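import Pool.Agent.TH879.KZ.Circ2

/-!
# Three-colourable Cayley graphs on `(ℤ/m)^n`

`Cay((ℤ/m)^n, S)` has a proper colouring with three colours iff some vector `a` satisfies
`a·s mod m ∈ [m/3, 2m/3]` for all `s ∈ S`.  In particular the generating set of a Cayley graph of
chromatic number at most three on `F_p^n` is contained in `{P ≠ 0}` for one quadratic form `P`,
the square of a linear form; the same holds if the circular chromatic number is less than four.
-/

set_option autoImplicit false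

namespace Pool.Agent.Results.MP_e4b685_co.ThreeColours

lemma square_form {p : ℕ} (hp : p.Prime) {n : ℕ} (S : Set (Fin n → ZMod p)) (a : Fin n → ZMod p)
    (ha : ∀ s ∈ S, ∑ i, a i * s i ≠ 0) :
    ∃ P : MvPolynomial (Fin n) (ZMod p), P.IsHomogeneous 2 ∧
      ∀ s ∈ S, MvPolynomial.eval s P ≠ 0 := by
  have : Fact p.Prime := ⟨hp⟩
  refine ⟨(∑ i, MvPolynomial.C (a i) * MvPolynomial.X i) ^ 2, ?_, fun s hs => ?_⟩
  · have h1 : (∑ i, MvPolynomial.C (a i) * MvPolynomial.X i :
        MvPolynomial (Fin n) (ZMod p)).IsHomogeneous 1 := by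
      refine MvPolynomial.IsHomogeneous.sum _ _ _ (fun i _ => ?_)
      have := (MvPolynomial.isHomogeneous_C (Fin n) (a i)).mul
        (MvPolynomial.isHomogeneous_X (ZMod p) i)
      simpa using this
    simpa using h1.pow 2
  · have h2 : MvPolynomial.eval s ((∑ i, MvPolynomial.C (a i) * MvPolynomial.X i) ^ 2 :
        MvPolynomial (Fin n) (ZMod p)) = (∑ i, a i * s i) ^ 2 := by
      simp [map_sum]
    rw [h2]
    exact pow_ne_zero 2 (ha s hs)

/-- **Three colours: one linear form separates the generators from `0`.** -/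
theorem result :
    -- (1) the Cayley graph of `(ℤ/m)^n` with difference set `S` is 3-colourable iff some
    -- `a` has `a·s mod m ∈ [m/3, 2m/3]` for all `s ∈ S`
    (∀ (m n : ℕ), 1 ≤ m → ∀ S : Set (Fin n → ZMod m),
      (∃ f : (Fin n → ZMod m) → Fin 3, ∀ x, ∀ s ∈ S, f x ≠ f (x + s)) ↔
        ∃ a : Fin n → ZMod m, ∀ s ∈ S,
          m ≤ 3 * (∑ i, a i * s i).val ∧ 3 * (∑ i, a i * s i).val ≤ 2 * m) ∧
    -- (2) the case `C = 3` of Q1, with `K = 1`
    (∀ p : ℕ, p.Prime → 3 ≤ p → ∀ n : ℕ, ∀ S : Set (Fin n → ZMod p),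
      (∃ f : (Fin n → ZMod p) → Fin 3, ∀ x, ∀ s ∈ S, f x ≠ f (x + s)) →
        ∃ P : MvPolynomial (Fin n) (ZMod p), P.IsHomogeneous 2 ∧
          ∀ s ∈ S, MvPolynomial.eval s P ≠ 0) ∧
    -- (3) circular chromatic number less than four: again `K = 1`
    (∀ p : ℕ, p.Prime → 3 ≤ p → ∀ n : ℕ, ∀ S : Set (Fin n → ZMod p), ∀ ρ : ℝ, 1 / 4 < ρ →
      (∃ f : (Fin n → ZMod p) → AddCircle (1 : ℝ), ∀ x, ∀ s ∈ S, ρ ≤ ‖f (x + s) - f x‖) →
        ∃ P : MvPolynomial (Fin n) (ZMod p), P.IsHomogeneous 2 ∧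
          ∀ s ∈ S, MvPolynomial.eval s P ≠ 0) := by
  refine ⟨fun m n hm S => ?_, fun p hp _ n S h => ?_, fun p hp _ n S ρ hρ h => ?_⟩
  · have : NeZero m := ⟨by omega⟩
    exact Pool.Agent.TH879.KZ.zmod_iff m n S
  · have : NeZero p := ⟨hp.ne_zero⟩
    obtain ⟨a, ha⟩ := (Pool.Agent.TH879.KZ.zmod_iff p n S).mp h
    refine square_form hp S a (fun s hs h0 => ?_)
    have := (ha s hs).1
    rw [h0, ZMod.val_zero] at this
    have := hp.pos
    omega
  · have : NeZero p := ⟨hp.ne_zero⟩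
    obtain ⟨a, ha⟩ := Pool.Agent.TH879.KZ.zmod_circ hρ S h
    refine square_form hp S a (fun s hs h0 => ?_)
    have h1 := (ha s hs).1
    rw [h0, ZMod.val_zero] at h1
    have h2 : (0 : ℝ) < p := by exact_mod_cast hp.pos
    have h3 : 0 < ρ * p := by positivity
    push_cast at h1
    linarith

end Pool.Agent.Results.MP_e4b685_co.ThreeColours
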